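import Pool.Agent.Lib_MP_888150_co.Tree

set_option autoImplicit false

namespace Pool.Agent.Results.MP_888150_co.TwoBroadcastBound

open Pool.Agent.MP888150

/-- Every finite connected graph of order `n ≥ 2`, in particular every tree, has a dominating
2-broadcast, and its 2-broadcast domination number is at most `(2 n + 4) / 3`. -/
theorem result {V : Type*} [Fintype V] (G : SimpleGraph V) (hG : G.Connected)
    (hn : 2 ≤ Fintype.card V) :
    (∃ f : V → ℕ, IsDominating2Broadcast G f ∧ ∑ v, f v = gammaB2 G) ∧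
      (gammaB2 G : ℚ) ≤ (2 * (Fintype.card V : ℚ) + 4) / 3 := by
  obtain ⟨f, hf, hc⟩ := connected_bound hG hn
  have hne : {c : ℕ | ∃ f : V → ℕ, IsDominating2Broadcast G f ∧ ∑ v, f v = c}.Nonempty :=
    ⟨∑ v, f v, f, hf, rfl⟩
  refine ⟨Nat.sInf_mem hne, ?_⟩
  have h1 : gammaB2 G ≤ ∑ v, f v := Nat.sInf_le ⟨f, hf, rfl⟩
  have h2 : 3 * gammaB2 G ≤ 2 * Fintype.card V + 4 := by omega
  have h3 : (3 * gammaB2 G : ℚ) ≤ 2 * (Fintype.card V : ℚ) + 4 := by exact_mod_cast h2
  rw [le_div_iff₀ (by norm_num)]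
  linarith

end Pool.Agent.Results.MP_888150_co.TwoBroadcastBound
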